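import Pool.Agent.Q169.TC.Vec
import Pool.Agent.Y77.NK.ADJ
import Pool.Agent.Y406.RO.WLIM

/-!
# Project TC (helper130), job CSA: case A
-/

set_option autoImplicit false

namespace Pool.Agent.Q169.TC

open MeasureTheory Set Metric Filter Topology
open scoped InnerProductSpace ENNReal NNReal ComplexConjugate ContDiff
open Pool.Agent.Y283.NK (ct IsMul HasHyp Repr fr)
open Pool.Agent.Y271.RO
open Pool.Agent.Q130.TC (nm Am sm VV IsW S_SM S_CMA S_MIN S_VK S_DNS S_CSA WT Inj cau)

/-- integrals of vector valued functions -/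
lemma nm_integral (m : ℕ) (g : ℂ → ℝ) (c : ℕ → ℂ → ℂ) (hg : Integrable g) (hg0 : ∀ z, 0 ≤ g z)
    (hgm : Measurable g) (hc : ∀ j, Measurable (c j)) (hb : ∀ z, nm m (fun j => c j z) ≤ 1) :
    (∀ i < m, Integrable (fun z => (g z : ℂ) * c i z)) ∧
    nm m (fun i => ∫ z, (g z : ℂ) * c i z) ≤ ∫ z, g z := by
  have hi : ∀ i < m, Integrable (fun z => (g z : ℂ) * c i z) := by
    intro i hi
    refine hg.mono' ((Complex.measurable_ofReal.comp hgm).mul (hc i)).aestronglyMeasurable
      (Eventually.of_forall fun z => ?_)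
    rw [norm_mul, Complex.norm_real, Real.norm_eq_abs, abs_of_nonneg (hg0 z)]
    exact mul_le_of_le_one_right (hg0 z) ((coord_le (fun j => c j z) hi).trans (hb z))
  refine ⟨hi, ?_⟩
  set y : ℕ → ℂ := fun i => ∫ z, (g z : ℂ) * c i z with hy
  set s : ℝ := nm m y with hs
  have hs0 : 0 ≤ s := nm_nonneg _ _
  have h1 : ((s ^ 2 : ℝ) : ℂ) = ∫ z, (g z : ℂ) * ∑ j ∈ Finset.range m, conj (y j) * c j z := by
    have h2 : ∀ z, (g z : ℂ) * ∑ j ∈ Finset.range m, conj (y j) * c j z =
        ∑ j ∈ Finset.range m, conj (y j) * ((g z : ℂ) * c j z) := by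
      intro z
      rw [Finset.mul_sum]
      exact Finset.sum_congr rfl fun j _ => by ring
    simp_rw [h2]
    rw [integral_finsetSum _ fun j hj => (hi j (Finset.mem_range.1 hj)).const_mul _, hs, nm_sq]
    push_cast
    refine Finset.sum_congr rfl fun j _ => ?_
    rw [integral_const_mul]
    show _ = conj (y j) * y j
    rw [mul_comm, Complex.mul_conj, Complex.normSq_eq_norm_sq]
    push_cast
    rfl
  have h3 : s ^ 2 ≤ s * ∫ z, g z := by
    have h4 : ‖((s ^ 2 : ℝ) : ℂ)‖ ≤ ∫ z, g z * s := by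
      rw [h1]
      refine norm_integral_le_of_norm_le (hg.mul_const s) (Eventually.of_forall fun z => ?_)
      rw [norm_mul, Complex.norm_real, Real.norm_eq_abs, abs_of_nonneg (hg0 z)]
      refine mul_le_mul_of_nonneg_left ?_ (hg0 z)
      refine (norm_sum_mul_le m (fun j => conj (y j)) (fun j => c j z)).trans ?_
      have h5 : nm m (fun j => conj (y j)) = s := by
        rw [hs]
        unfold nm
        congr 1
        exact Finset.sum_congr rfl fun j _ => by rw [RCLike.norm_conj]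
      rw [h5]
      exact mul_le_of_le_one_right hs0 (hb z)
    rw [Complex.norm_real, Real.norm_eq_abs, abs_of_nonneg (by positivity), integral_mul_const] at h4
    linarith
  rcases hs0.eq_or_lt with h0 | h0
  · rw [← h0]
    exact integral_nonneg hg0
  · refine le_of_mul_le_mul_left ?_ h0
    nlinarith

lemma WT.mono {h h' : ℂ → ℝ} {C δ δ' : ℝ} (hW : WT h C δ) (hi : Integrable h)
    (h0 : ∀ z, 0 ≤ h' z) (hle : ∀ z, h' z ≤ h z) (hδ : δ ≤ δ') : WT h' C δ' := by
  intro S _ μ _ φ k hφ hk t ht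
  have h1 := hW S μ φ k hφ hk t ht
  have h2 : ∫ z in {z | t ≤ ‖cau μ φ k z‖}, h' z ≤ ∫ z in {z | t ≤ ‖cau μ φ k z‖}, h z := by
    refine integral_mono_of_nonneg (Eventually.of_forall h0) hi.integrableOn
      (Eventually.of_forall hle)
  linarith

theorem csa (h1 : S_SM) (h2 : S_CMA) (h3 : S_MIN) (h4 : S_VK) (h5 : S_DNS) : S_CSA := by
  intro S _ μ _ φ N K hN u v hR hInj w hw a ρ C c₀ l B δ hρ hC hc₀ hlm hl0 hls hlc hlC hδ0 hδ hWT
    hwl
  classical
  by_contra hno
  have hch : ∀ Y, IsChain (N + K) a (4 * ρ) Y → Y 0 = 0 := by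
    intro Y hY
    by_contra hne
    exact hno ⟨Y, hY, hne⟩
  have hWLIM := Pool.Agent.Y406.RO.WLIM.main
  obtain ⟨hRu, hRv, -⟩ := id hR
  have hTRC := (Pool.Agent.Y77.NK.main_trc _ K u v hR).2.2.1
  obtain ⟨J, θ, δ₀, hθ, hδ₀, hCMA⟩ := h2 S μ φ hN.meas u v hRu hRv C c₀ hC hc₀
  obtain ⟨C₁, hC₁, hMIN⟩ := h3
  set U₀ : ℝ := √(∑' j, ‖u j‖ ^ 2) with hU
  have hU0 : 0 ≤ U₀ := Real.sqrt_nonneg _
  have hUm : ∀ m, ∑ j ∈ Finset.range m, ‖u j‖ ^ 2 ≤ U₀ ^ 2 := by
    intro m
    rw [hU, Real.sq_sqrt (tsum_nonneg fun _ => by positivity)]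
    exact hRu.sum_le_tsum _ fun _ _ => by positivity
  -- the densities are integrable
  have hvol : volume (ball a ρ) ≠ ⊤ := measure_ball_lt_top.ne
  have hbi : ∀ (f : ℂ → ℝ) (M : ℝ), Measurable f → (∀ z, 0 ≤ f z ∧ f z ≤ M) →
      (∀ z, z ∉ ball a ρ → f z = 0) → Integrable f := by
    intro f M hf hfM hfs
    have e1 : f = (ball a ρ).indicator f := by
      funext z
      by_cases hz : z ∈ ball a ρ
      · rw [indicator_of_mem hz]
      · rw [indicator_of_notMem hz, hfs z hz]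
    rw [e1, integrable_indicator_iff measurableSet_ball]
    refine Measure.integrableOn_of_bounded (M := M) hvol hf.aestronglyMeasurable ?_
    exact Eventually.of_forall fun z => by
      rw [Real.norm_eq_abs, abs_of_nonneg (hfM z).1]
      exact (hfM z).2
  have hli : ∀ n, Integrable (l n) := fun n => hbi (l n) (B n) (hlm n) (hl0 n) (hls n)
  have hB0 : ∀ n, 0 ≤ B n := fun n => (hl0 n a).1.trans (hl0 n a).2
  -- the ranks
  have hballs : ball a ρ ⊆ ball (0 : ℂ) (‖a‖ + ρ) := by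
    intro z hz
    rw [mem_ball, dist_eq_norm] at hz ⊢
    rw [sub_zero]
    calc ‖z‖ = ‖(z - a) + a‖ := by rw [sub_add_cancel]
      _ ≤ ‖z - a‖ + ‖a‖ := norm_add_le _ _
      _ < ‖a‖ + ρ := by linarith
  have hm : ∀ n : ℕ, ∃ m : ℕ, 1 ≤ m ∧ n ≤ m ∧ ∫⁻ z in ball a ρ, ‖sm φ u v m z - w z‖ₑ ≤
      ENNReal.ofReal (1 / (((n : ℝ) + 1) * (B n + 1))) := by
    intro n
    have e2 := hw.lim (‖a‖ + ρ)
    have e3 : (0 : ℝ≥0∞) < ENNReal.ofReal (1 / (((n : ℝ) + 1) * (B n + 1))) := by
      have := hB0 n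
      exact ENNReal.ofReal_pos.2 (by positivity)
    have e4 := (e2.eventually (ge_mem_nhds e3)).and (eventually_ge_atTop (max 1 n))
    obtain ⟨m, e5, e6⟩ := e4.exists
    refine ⟨m, (le_max_left _ _).trans e6, (le_max_right _ _).trans e6, le_trans ?_ e5⟩
    exact lintegral_mono_set hballs
  choose m hm1 hm2 hm3 using hm
  have hmt : Tendsto m atTop atTop := tendsto_atTop_mono hm2 tendsto_id
  -- approximate kernel vectors
  have hcc : ∀ n : ℕ, ∃ c : ℕ → ℂ → ℂ, (∀ j, Measurable (c j)) ∧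
      ∀ z, nm (m n) (fun j => c j z) = 1 ∧ nm (m n) (Am φ u v (m n) z fun j => c j z) ≤
        sm φ u v (m n) z + 1 / ((n : ℝ) + 1) := fun n =>
    (h1 S μ φ hN.meas u v (m n) (hm1 n)).2.2.1 (1 / ((n : ℝ) + 1)) (by positivity)
  choose c hcm hc1 using hcc
  have hsmm : ∀ n, Measurable (sm φ u v (m n)) := fun n =>
    (h1 S μ φ hN.meas u v (m n) (hm1 n)).1
  have hsm0 : ∀ n z, 0 ≤ sm φ u v (m n) z := fun n =>
    (h1 S μ φ hN.meas u v (m n) (hm1 n)).2.1
  -- the errors
  have hAmm : ∀ n, Measurable fun z => nm (m n) (Am φ u v (m n) z fun j => c n j z) := by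
    intro n
    unfold nm
    refine Measurable.sqrt (Finset.measurable_sum _ fun i _ => (Measurable.norm ?_).pow_const 2)
    unfold Am
    refine (hcm n i).sub (Finset.measurable_sum _ fun j _ => Measurable.mul ?_ (hcm n j))
    exact (Pool.Agent.Y108.RO.main S μ φ hN.meas (v i) (u j)).1
  have hwi : ∀ n, Integrable (fun z => w z * l n z) := by
    intro n
    have e1 : (fun z => w z * l n z) = (ball a ρ).indicator (fun z => w z * l n z) := by
      funext z
      by_cases hz : z ∈ ball a ρ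
      · rw [indicator_of_mem hz]
      · rw [indicator_of_notMem hz, hls n z hz, mul_zero]
    rw [e1, integrable_indicator_iff measurableSet_ball]
    have e2 : IntegrableOn w (ball a ρ) :=
      (hw.loc.integrableOn_isCompact (isCompact_closedBall a ρ)).mono_set ball_subset_closedBall
    refine (e2.norm.const_mul (B n)).mono' (hw.meas.mul (hlm n)).aestronglyMeasurable
      (Eventually.of_forall fun z => ?_)
    rw [norm_mul, Real.norm_eq_abs (l n z), abs_of_nonneg (hl0 n z).1, mul_comm]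
    exact mul_le_mul_of_nonneg_right (hl0 n z).2 (norm_nonneg _)
  have hdi : ∀ n, Integrable (fun z => |sm φ u v (m n) z - w z| * l n z) ∧
      ∫ z, |sm φ u v (m n) z - w z| * l n z ≤ 1 / ((n : ℝ) + 1) := by
    intro n
    have hBn := hB0 n
    have e0 : (∫⁻ z in ball a ρ, ‖sm φ u v (m n) z - w z‖ₑ) ≠ ⊤ :=
      ((hm3 n).trans_lt ENNReal.ofReal_lt_top).ne
    have e2 : IntegrableOn (fun z => sm φ u v (m n) z - w z) (ball a ρ) :=
      ⟨((hsmm n).sub hw.meas).aestronglyMeasurable, lt_top_iff_ne_top.2 e0⟩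
    have e1 : (fun z => |sm φ u v (m n) z - w z| * l n z) =
        (ball a ρ).indicator (fun z => |sm φ u v (m n) z - w z| * l n z) := by
      funext z
      by_cases hz : z ∈ ball a ρ
      · rw [indicator_of_mem hz]
      · rw [indicator_of_notMem hz, hls n z hz, mul_zero]
    have e3 : IntegrableOn (fun z => |sm φ u v (m n) z - w z| * l n z) (ball a ρ) := by
      refine (e2.norm.const_mul (B n)).mono'
        (((hsmm n).sub hw.meas).abs.mul (hlm n)).aestronglyMeasurable
        (Eventually.of_forall fun z => ?_)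
      rw [norm_mul, Real.norm_eq_abs (l n z), abs_of_nonneg (hl0 n z).1, mul_comm,
        Real.norm_eq_abs, abs_abs, ← Real.norm_eq_abs]
      exact mul_le_mul_of_nonneg_right (hl0 n z).2 (norm_nonneg _)
    refine ⟨by rw [e1, integrable_indicator_iff measurableSet_ball]; exact e3, ?_⟩
    rw [e1, integral_indicator measurableSet_ball]
    have e4 : ∫ z in ball a ρ, ‖sm φ u v (m n) z - w z‖ ≤ 1 / (((n : ℝ) + 1) * (B n + 1)) := by
      rw [integral_norm_eq_lintegral_enorm e2.aestronglyMeasurable]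
      exact ENNReal.toReal_le_of_le_ofReal (by positivity) (hm3 n)
    calc ∫ z in ball a ρ, |sm φ u v (m n) z - w z| * l n z
        ≤ ∫ z in ball a ρ, B n * ‖sm φ u v (m n) z - w z‖ := by
          refine integral_mono e3 (e2.norm.const_mul (B n)) fun z => ?_
          show |sm φ u v (m n) z - w z| * l n z ≤ B n * ‖sm φ u v (m n) z - w z‖
          rw [mul_comm, Real.norm_eq_abs]
          exact mul_le_mul_of_nonneg_right (hl0 n z).2 (abs_nonneg _)
      _ = B n * ∫ z in ball a ρ, ‖sm φ u v (m n) z - w z‖ := integral_const_mul _ _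
      _ ≤ B n * (1 / (((n : ℝ) + 1) * (B n + 1))) := mul_le_mul_of_nonneg_left e4 hBn
      _ ≤ 1 / ((n : ℝ) + 1) := by
          rw [mul_one_div, div_le_div_iff₀ (by positivity) (by positivity)]
          nlinarith [Nat.cast_nonneg (α := ℝ) n]
  set A : ℕ → ℝ := fun n => (∫ z, w z * l n z) + 1 / ((n : ℝ) + 1) + 1 / ((n : ℝ) + 1) * C with hA
  have hAt : Tendsto A atTop (𝓝 0) := by
    have e1 := tendsto_one_div_add_atTop_nhds_zero_nat (𝕜 := ℝ)
    have e2 := (hwl.add e1).add (e1.mul_const C)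
    have e3 : (0 : ℝ) + 0 + 0 * C = 0 := by ring
    rw [e3] at e2
    exact e2
  have hAi : ∀ n, Integrable (fun z => l n z * nm (m n) (Am φ u v (m n) z fun j => c n j z)) ∧
      ∫ z, l n z * nm (m n) (Am φ u v (m n) z fun j => c n j z) ≤ A n := by
    intro n
    have e1 : ∀ z, l n z * nm (m n) (Am φ u v (m n) z fun j => c n j z) ≤
        w z * l n z + |sm φ u v (m n) z - w z| * l n z + 1 / ((n : ℝ) + 1) * l n z := by
      intro z
      have e2 := (hc1 n z).2
      have e3 := (hl0 n z).1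
      have e4 := le_abs_self (sm φ u v (m n) z - w z)
      calc l n z * nm (m n) (Am φ u v (m n) z fun j => c n j z)
          ≤ l n z * (w z + |sm φ u v (m n) z - w z| + 1 / ((n : ℝ) + 1)) :=
            mul_le_mul_of_nonneg_left (by linarith) e3
        _ = _ := by ring
    have e2 : Integrable (fun z => w z * l n z + |sm φ u v (m n) z - w z| * l n z +
        1 / ((n : ℝ) + 1) * l n z) := ((hwi n).add (hdi n).1).add ((hli n).const_mul _)
    have e3 : ∀ z, 0 ≤ l n z * nm (m n) (Am φ u v (m n) z fun j => c n j z) := fun z =>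
      mul_nonneg (hl0 n z).1 (nm_nonneg _ _)
    have e4 : Integrable (fun z => l n z * nm (m n) (Am φ u v (m n) z fun j => c n j z)) := by
      refine e2.mono' ((hlm n).mul (hAmm n)).aestronglyMeasurable (Eventually.of_forall fun z => ?_)
      rw [Real.norm_eq_abs, abs_of_nonneg (e3 z)]
      exact e1 z
    have e5 : Integrable (fun z => w z * l n z + |sm φ u v (m n) z - w z| * l n z) :=
      (hwi n).add (hdi n).1
    have e6 : Integrable (fun z => 1 / ((n : ℝ) + 1) * l n z) := (hli n).const_mul _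
    refine ⟨e4, (integral_mono e4 e2 e1).trans ?_⟩
    rw [integral_add e5 e6, integral_add (hwi n) (hdi n).1, integral_const_mul]
    refine add_le_add (add_le_add le_rfl (hdi n).2) ?_
    exact mul_le_mul_of_nonneg_left (hlC n) (by positivity)
  -- the index `j`
  have hev : ∀ᶠ n in atTop, ∃ j ∈ Finset.range J, j < m n ∧ v j ≠ 0 ∧
      θ ≤ ∫ z in {z | θ ≤ ‖c n j z‖}, l n z := by
    filter_upwards [hδ.eventually (ge_mem_nhds hδ₀), hAt.eventually (ge_mem_nhds hδ₀)] with n e1 e2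
    obtain ⟨j, e3, e4, e5, e6⟩ := hCMA (l n) (m n) (c n) (hlm n) (fun z => (hl0 n z).1) (hli n)
      (WT.mono (hWT n) (hli n) (fun z => (hl0 n z).1) (fun z => le_rfl) e1) (hcm n)
      (fun z => (hc1 n z).1) (hAi n).1 ((hAi n).2.trans e2) (hlc n)
    exact ⟨j, Finset.mem_range.2 e3, e4, e5, e6⟩
  obtain ⟨j, hj⟩ : ∃ j, ∃ᶠ n in atTop, j < m n ∧ v j ≠ 0 ∧
      θ ≤ ∫ z in {z | θ ≤ ‖c n j z‖}, l n z := by
    by_contra hcon
    have e1 : ∀ j ∈ Finset.range J, ∀ᶠ n in atTop, ¬ (j < m n ∧ v j ≠ 0 ∧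
        θ ≤ ∫ z in {z | θ ≤ ‖c n j z‖}, l n z) := fun j _ => by
      have := not_exists.1 hcon j
      rwa [not_frequently] at this
    have e2 := (Filter.eventually_all_finset _).2 e1
    obtain ⟨n, e3, j, e4, e5⟩ := (e2.and hev).exists
    exact e3 j e4 e5
  have hj2 : ∃ᶠ n in atTop, (j < m n ∧ v j ≠ 0 ∧ θ ≤ ∫ z in {z | θ ≤ ‖c n j z‖}, l n z) ∧
      C₁ * δ n ≤ θ := by
    refine hj.and_eventually ?_
    have e1 : Tendsto (fun n => C₁ * δ n) atTop (𝓝 0) := by
      have := hδ.const_mul C₁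
      rwa [mul_zero] at this
    exact e1.eventually (ge_mem_nhds hθ)
  obtain ⟨s, hs, hsP⟩ := extraction_of_frequently_atTop hj2
  have hst : Tendsto s atTop atTop := hs.tendsto_atTop
  have hvj : v j ≠ 0 := (hsP 0).1.2.1
  -- the densities on the set where the component is large
  set G : ℕ → Set ℂ := fun n => {z | θ ≤ ‖c n j z‖} with hG
  have hGm : ∀ n, MeasurableSet (G n) := fun n => measurableSet_le measurable_const (hcm n j).norm
  set p : ℕ → ℂ → ℂ := fun n z => conj (c n j z) / (‖c n j z‖ : ℂ) with hp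
  have hpm : ∀ n, Measurable (p n) := fun n =>
    (Complex.continuous_conj.measurable.comp (hcm n j)).div
      (Complex.measurable_ofReal.comp (hcm n j).norm)
  have hp1 : ∀ n z, ‖p n z‖ ≤ 1 := by
    intro n z
    rw [hp]
    show ‖conj (c n j z) / (‖c n j z‖ : ℂ)‖ ≤ 1
    rw [norm_div, RCLike.norm_conj, Complex.norm_real, norm_norm]
    exact div_self_le_one _
  have hpj : ∀ n z, p n z * c n j z = (‖c n j z‖ : ℂ) := by
    intro n z
    by_cases hz : c n j z = 0
    · rw [hz]; simp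
    · have e1 : (‖c n j z‖ : ℂ) ≠ 0 := by
        rw [Complex.ofReal_ne_zero]
        exact norm_ne_zero_iff.2 hz
      show conj (c n j z) / (‖c n j z‖ : ℂ) * c n j z = (‖c n j z‖ : ℂ)
      rw [div_mul_eq_mul_div, div_eq_iff e1, mul_comm, Complex.mul_conj,
        Complex.normSq_eq_norm_sq]
      push_cast
      ring
  have hc'm : ∀ n i, Measurable (fun z => p n z * c n i z) := fun n i => (hpm n).mul (hcm n i)
  have hc'1 : ∀ n z, nm (m n) (fun i => p n z * c n i z) ≤ 1 := by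
    intro n z
    rw [nm_mul, (hc1 n z).1, mul_one]
    exact hp1 n z
  have hg : ∀ n, ∃ g : ℂ → ℝ, Measurable g ∧ (∀ z, 0 ≤ g z ∧ g z ≤ (G (s n)).indicator (l (s n)) z) ∧
      θ / 2 ≤ ∫ z, g z ∧ ‖VV φ u (m (s n)) a g (fun i z => p (s n) z * c (s n) i z) 0‖ ≤
        C₁ * C * U₀ + 1 := by
    intro n
    set k := s n with hk
    have e1 : ∀ z, 0 ≤ (G k).indicator (l k) z := fun z =>
      indicator_nonneg (fun z _ => (hl0 k z).1) z
    have e2 : ∀ z, (G k).indicator (l k) z ≤ l k z := fun z =>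
      indicator_le_self' (fun z _ => (hl0 k z).1) z
    have e3 : θ ≤ ∫ z, (G k).indicator (l k) z := by
      rw [integral_indicator (hGm k)]
      exact (hsP n).1.2.2
    obtain ⟨g, g1, g2, g3, g4⟩ := hMIN S μ φ N hN u (m k) U₀ hU0 (hUm (m k))
      ((G k).indicator (l k)) C (δ k) ρ (B k) a ((hlm k).indicator (hGm k))
      (fun z => ⟨e1 z, (e2 z).trans (hl0 k z).2⟩)
      (fun z hz => le_antisymm ((e2 z).trans_eq (hls k z hz)) (e1 z)) hC (hδ0 k)
      (WT.mono (hWT k) (hli k) e1 e2 le_rfl) ((hsP n).2.trans e3)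
      (fun i z => p k z * c k i z) (hc'm k) (hc'1 k)
    exact ⟨g, g1, g2, by linarith, g4⟩
  choose g hg1 hg2 hg3 hg4 using hg
  have hgl : ∀ n z, g n z ≤ l (s n) z := fun n z => ((hg2 n z).2).trans
    (indicator_le_self' (fun z _ => (hl0 (s n) z).1) z)
  have hgs : ∀ n z, z ∉ ball a ρ → g n z = 0 := fun n z hz =>
    le_antisymm ((hgl n z).trans_eq (hls (s n) z hz)) (hg2 n z).1
  have hgi : ∀ n, Integrable (g n) := fun n => hbi (g n) (B (s n)) (hg1 n)
    (fun z => ⟨(hg2 n z).1, (hgl n z).trans (hl0 (s n) z).2⟩) (hgs n)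
  have hgC : ∀ n, ∫ z, g n z ≤ C := fun n =>
    (integral_mono (hgi n) (hli (s n)) (hgl n)).trans (hlC (s n))
  have hg0 : ∀ n, 0 ≤ ∫ z, g n z := fun n => integral_nonneg fun z => (hg2 n z).1
  -- the vectors
  set c' : ℕ → ℕ → ℂ → ℂ := fun n i z => p (s n) z * c (s n) i z with hc'
  set X : ℕ → ℕ → Lp ℂ 2 μ := fun n k => VV φ u (m (s n)) a (g n) (c' n) k with hX
  have hVK := fun n => h4 S μ φ N hN u v (m (s n)) U₀ hU0 (hUm _) (g n) ρ (B (s n)) a hρ (hg1 n)
    (fun z => ⟨(hg2 n z).1, (hgl n z).trans (hl0 (s n) z).2⟩) (hgs n) (c' n)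
    (fun i => hc'm (s n) i) (fun z => hc'1 (s n) z)
  set C' : ℝ := C₁ * C * U₀ + 1 + 2 * C * U₀ / ρ with hC'
  have hC'0 : 0 ≤ C' := by positivity
  have hXb : ∀ n k, ‖X n k‖ ≤ C' * (4 * ρ) ^ k := by
    intro n k
    refine ((hVK n).1 k).trans (mul_le_mul_of_nonneg_right ?_ (by positivity))
    refine add_le_add (hg4 n) ?_
    have := hgC n
    gcongr
  have hfr : ∀ k, Tendsto (fun n => (N + fr u v (m (s n))) (X n k) - a • X n k - X n (k + 1)) atTop
      (𝓝 0) := by
    intro k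
    have e1 : Tendsto (fun n => U₀ * ρ ^ k * A (s n)) atTop (𝓝 0) := by
      have := (hAt.comp hst).const_mul (U₀ * ρ ^ k)
      rwa [mul_zero] at this
    refine squeeze_zero_norm (fun n => ?_) e1
    refine ((hVK n).2.2.1 k).trans (mul_le_mul_of_nonneg_left ?_ (by positivity))
    refine le_trans ?_ (hAi (s n)).2
    have e2 : ∀ z, g n z * nm (m (s n)) (Am φ u v (m (s n)) z fun j => c' n j z) ≤
        l (s n) z * nm (m (s n)) (Am φ u v (m (s n)) z fun j => c (s n) j z) := by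
      intro z
      have e3 : nm (m (s n)) (Am φ u v (m (s n)) z fun j => c' n j z) =
          ‖p (s n) z‖ * nm (m (s n)) (Am φ u v (m (s n)) z fun j => c (s n) j z) := by
        rw [← nm_mul]
        exact nm_congr fun i _ => Am_mul _ _ _ _ _ _ _ _
      rw [e3]
      refine mul_le_mul (hgl n z) ?_ (mul_nonneg (norm_nonneg _) (nm_nonneg _ _)) (hl0 (s n) z).1
      exact mul_le_of_le_one_left (nm_nonneg _ _) (hp1 (s n) z)
    exact integral_mono_of_nonneg (Eventually.of_forall fun z =>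
      mul_nonneg (hg2 n z).1 (nm_nonneg _ _)) (hAi (s n)).1 (Eventually.of_forall e2)
  have hfin : ∀ k, Tendsto (fun n => (K - fr u v (m (s n))) (X n k)) atTop (𝓝 0) := by
    intro k
    have e2 : Tendsto (fun n => K - fr u v (m (s n))) atTop (𝓝 0) := by
      have e3 := (hTRC.comp (hmt.comp hst)).const_sub K
      rwa [sub_self] at e3
    have e4 : Tendsto (fun n => ‖K - fr u v (m (s n))‖ * (C' * (4 * ρ) ^ k)) atTop (𝓝 0) := by
      have e5 := e2.norm.mul_const (C' * (4 * ρ) ^ k)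
      rwa [norm_zero, zero_mul] at e5
    refine squeeze_zero_norm (fun n => ?_) e4
    exact (ContinuousLinearMap.le_opNorm _ _).trans
      (mul_le_mul_of_nonneg_left (hXb n k) (norm_nonneg _))
  have hlim : ∀ k, Tendsto (fun n => (N + K) (X n k) - a • X n k - X n (k + 1)) atTop (𝓝 0) := by
    intro k
    have e1 := (hfr k).add (hfin k)
    rw [add_zero] at e1
    refine e1.congr fun n => ?_
    simp only [_root_.add_apply, _root_.sub_apply]
    abel
  have hw0 : ∀ x : Lp ℂ 2 μ, Tendsto (fun n => ⟪x, X n 0⟫_ℂ) atTop (𝓝 0) :=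
    (hWLIM _ (N + K) a (4 * ρ) C' X (by positivity) hXb hlim).2 hch
  have hw1 : ∀ x : Lp ℂ 2 μ, Tendsto (fun n => ⟪x, X n 1⟫_ℂ) atTop (𝓝 0) :=
    (hWLIM _ (N + K) a (4 * ρ) (C' * (4 * ρ)) (fun n k => X n (k + 1)) (by positivity)
      (fun n k => (hXb n (k + 1)).trans_eq (by ring)) (fun k => hlim (k + 1))).2 hch
  -- the coordinates
  set y : ℕ → ℕ → ℂ := fun n i => ∫ z, (g n z : ℂ) * c' n i z with hy
  have hyn : ∀ n, nm (m (s n)) (y n) ≤ C := fun n =>
    (nm_integral (m (s n)) (g n) (c' n) (hgi n) (fun z => (hg2 n z).1) (hg1 n)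
      (fun i => hc'm (s n) i) (fun z => hc'1 (s n) z)).2.trans (hgC n)
  have hyj : ∀ n, θ ^ 2 / 2 ≤ ‖y n j‖ := by
    intro n
    have e1 : y n j = ((∫ z, g n z * ‖c (s n) j z‖ : ℝ) : ℂ) := by
      rw [← integral_complex_ofReal]
      refine integral_congr_ae (Eventually.of_forall fun z => ?_)
      show (g n z : ℂ) * (p (s n) z * c (s n) j z) = ((g n z * ‖c (s n) j z‖ : ℝ) : ℂ)
      rw [hpj]
      push_cast
      rfl
    have e2 : Integrable (fun z => g n z * ‖c (s n) j z‖) := by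
      refine (hgi n).mono' ((hg1 n).mul (hcm (s n) j).norm).aestronglyMeasurable
        (Eventually.of_forall fun z => ?_)
      rw [norm_mul, norm_norm, Real.norm_eq_abs, abs_of_nonneg (hg2 n z).1]
      refine mul_le_of_le_one_right (hg2 n z).1 ?_
      exact (coord_le (fun i => c (s n) i z) (hsP n).1.1).trans_eq (hc1 (s n) z).1
    have e3 : θ * (θ / 2) ≤ ∫ z, g n z * ‖c (s n) j z‖ := by
      calc θ * (θ / 2) ≤ θ * ∫ z, g n z := mul_le_mul_of_nonneg_left (hg3 n) hθ.le
        _ = ∫ z, θ * g n z := (integral_const_mul _ _).symm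
        _ ≤ ∫ z, g n z * ‖c (s n) j z‖ := by
            refine integral_mono ((hgi n).const_mul θ) e2 fun z => ?_
            show θ * g n z ≤ g n z * ‖c (s n) j z‖
            by_cases hz : z ∈ G (s n)
            · rw [mul_comm]
              exact mul_le_mul_of_nonneg_left hz (hg2 n z).1
            · have e4 := (hg2 n z).2
              rw [indicator_of_notMem hz] at e4
              have e5 : g n z = 0 := le_antisymm e4 (hg2 n z).1
              rw [e5]
              simp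
    rw [e1, Complex.norm_real, Real.norm_eq_abs]
    refine le_trans ?_ (le_abs_self _)
    linarith [e3, sq θ]
  have hysum : ∀ n, ∑ i ∈ Finset.range (m (s n)), y n i • u i =
      X n 1 - (N (X n 0) - a • X n 0) := by
    intro n
    have e1 := (hVK n).2.1 0
    have e2 : ∀ i, (∫ z, (z - a) ^ 0 * ((g n z : ℂ) * c' n i z)) = y n i := by
      intro i
      simp only [pow_zero, one_mul]
      rfl
    simp_rw [e2] at e1
    show _ = VV φ u (m (s n)) a (g n) (c' n) (0 + 1) - (N (VV φ u (m (s n)) a (g n) (c' n) 0) -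
      a • VV φ u (m (s n)) a (g n) (c' n) 0)
    rw [e1]
    abel
  obtain ⟨x, hx⟩ := h5 _ u v hRu hInj j hvj (θ ^ 2 / (8 * (C + 1))) (by positivity)
  have hlimy : Tendsto (fun n => ⟪x, ∑ i ∈ Finset.range (m (s n)), y n i • u i⟫_ℂ) atTop
      (𝓝 0) := by
    have e1 := ((hw1 x).sub ((hw0 (ContinuousLinearMap.adjoint N x)).sub
      ((hw0 x).const_mul a)))
    simp only [mul_zero, sub_zero] at e1
    refine e1.congr fun n => ?_
    rw [hysum n, inner_sub_right, inner_sub_right, inner_smul_right,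
      ContinuousLinearMap.adjoint_inner_left]
  have hfinal : ∀ᶠ n in atTop, ‖⟪x, ∑ i ∈ Finset.range (m (s n)), y n i • u i⟫_ℂ‖ < θ ^ 2 / 8 := by
    have e1 := hlimy.norm
    rw [norm_zero] at e1
    exact e1.eventually (gt_mem_nhds (by positivity))
  obtain ⟨n, hn⟩ := hfinal.exists
  have e1 := hx (m (s n)) (y n) (hsP n).1.1
  have e2 : ‖y n j‖ ≤ ‖y n j - ⟪x, ∑ i ∈ Finset.range (m (s n)), y n i • u i⟫_ℂ‖ +
      ‖⟪x, ∑ i ∈ Finset.range (m (s n)), y n i • u i⟫_ℂ‖ := by
    have := norm_add_le (y n j - ⟪x, ∑ i ∈ Finset.range (m (s n)), y n i • u i⟫_ℂ)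
      (⟪x, ∑ i ∈ Finset.range (m (s n)), y n i • u i⟫_ℂ)
    rwa [sub_add_cancel] at this
  have e3 : θ ^ 2 / (8 * (C + 1)) * nm (m (s n)) (y n) ≤ θ ^ 2 / 8 := by
    calc θ ^ 2 / (8 * (C + 1)) * nm (m (s n)) (y n) ≤ θ ^ 2 / (8 * (C + 1)) * (C + 1) :=
          mul_le_mul_of_nonneg_left ((hyn n).trans (by linarith)) (by positivity)
      _ = θ ^ 2 / 8 := by field_simp
  have e4 := hyj n
  nlinarith [sq_pos_of_pos hθ]

end Pool.Agent.Q169.TC
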