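import Pool.Agent.Q169.TC.Vec
import Pool.Agent.Y77.NK.ADJ

/-!
# Project TC (helper130), job CSB: the vectors in case B
-/

set_option autoImplicit false

namespace Pool.Agent.Q169.TC

open MeasureTheory Set Metric Filter Topology
open scoped InnerProductSpace ENNReal NNReal ComplexConjugate ContDiff
open Pool.Agent.Y283.NK (ct IsMul HasHyp Repr fr)
open Pool.Agent.Y271.RO
open Pool.Agent.Q130.TC (nm Am sm VV IsW S_SM S_CSB)
open Pool.Agent.Y941.RO (mv_step Kbound CO pair_pow pair_inv)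

/-- an integral against the error -/
lemma err_int {a : ℂ} {τ r : ℝ} (P F : ℂ → ℂ) (B : ℝ)
    (hF1 : ∀ z ∈ ball a τ, F z = 0) (hF2 : ∀ z, r < ‖z - a‖ → F z = 0)
    (hB : ∀ z, τ ≤ ‖z - a‖ → ‖z - a‖ ≤ r → ‖P z‖ ≤ B) :
    ‖∫ z, P z * F z‖ₑ ≤ ENNReal.ofReal B * ∫⁻ z, ‖F z‖ₑ := by
  calc ‖∫ z, P z * F z‖ₑ ≤ ∫⁻ z, ‖P z * F z‖ₑ := enorm_integral_le_lintegral_enorm _
    _ ≤ ∫⁻ z, ENNReal.ofReal B * ‖F z‖ₑ := by
        apply lintegral_mono
        intro z
        show ‖P z * F z‖ₑ ≤ ENNReal.ofReal B * ‖F z‖ₑ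
        by_cases h1 : z ∈ ball a τ
        · rw [hF1 z h1]
          simp
        · rw [mem_ball, dist_eq_norm, not_lt] at h1
          by_cases h2 : ‖z - a‖ ≤ r
          · rw [enorm_mul]
            gcongr
            rw [← ofReal_norm]
            exact ENNReal.ofReal_le_ofReal (hB z h1 h2)
          · rw [hF2 z (not_le.mp h2)]
            simp
    _ = ENNReal.ofReal B * ∫⁻ z, ‖F z‖ₑ := by
        rw [lintegral_const_mul' _ _ ENNReal.ofReal_ne_top]

/-- sums of vectors with small coefficients -/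
lemma sum_small {H : Type} [NormedAddCommGroup H] [InnerProductSpace ℂ H] (u v : ℕ → H)
    (hu : Summable (fun j => ‖u j‖ ^ 2)) (hv : Summable (fun j => ‖v j‖ ^ 2)) (D : ℝ) (hD : 0 ≤ D)
    (m : ℕ → ℕ) (L : ℕ → ℝ≥0∞) (hL : Tendsto L atTop (𝓝 0)) (E : ℕ → ℕ → ℂ)
    (hE : ∀ n, ∀ i < m n, ‖E n i‖ₑ ≤ ENNReal.ofReal (D * ‖v i‖) * L n) :
    Tendsto (fun n => ∑ i ∈ Finset.range (m n), E n i • u i) atTop (𝓝 0) := by
  rw [tendsto_zero_iff_enorm_tendsto_zero]
  set A : ℝ := D * ((∑' j, ‖u j‖ ^ 2) + ∑' j, ‖v j‖ ^ 2) with hA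
  have h0 : Tendsto (fun n => ENNReal.ofReal A * L n) atTop (𝓝 0) := by
    have := ENNReal.Tendsto.const_mul (a := ENNReal.ofReal A) hL (Or.inr ENNReal.ofReal_ne_top)
    rwa [mul_zero] at this
  refine tendsto_of_tendsto_of_tendsto_of_le_of_le tendsto_const_nhds h0 (fun _ => bot_le) ?_
  intro n
  show ‖∑ i ∈ Finset.range (m n), E n i • u i‖ₑ ≤ ENNReal.ofReal A * L n
  calc ‖∑ i ∈ Finset.range (m n), E n i • u i‖ₑ
      ≤ ∑ i ∈ Finset.range (m n), ‖E n i • u i‖ₑ := enorm_sum_le _ _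
    _ ≤ ∑ i ∈ Finset.range (m n), ENNReal.ofReal (D * (‖u i‖ ^ 2 + ‖v i‖ ^ 2)) * L n := by
        refine Finset.sum_le_sum fun i hi => ?_
        rw [enorm_smul]
        calc ‖E n i‖ₑ * ‖u i‖ₑ ≤ ENNReal.ofReal (D * ‖v i‖) * L n * ‖u i‖ₑ := by
              gcongr
              exact hE n i (Finset.mem_range.1 hi)
          _ = ENNReal.ofReal (D * ‖v i‖) * ENNReal.ofReal ‖u i‖ * L n := by
              rw [ofReal_norm]
              ring
          _ = ENNReal.ofReal (D * ‖v i‖ * ‖u i‖) * L n := by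
              rw [← ENNReal.ofReal_mul (by positivity)]
          _ ≤ ENNReal.ofReal (D * (‖u i‖ ^ 2 + ‖v i‖ ^ 2)) * L n := by
              refine mul_le_mul' (ENNReal.ofReal_le_ofReal ?_) le_rfl
              rw [mul_assoc]
              refine mul_le_mul_of_nonneg_left ?_ hD
              nlinarith [sq_nonneg (‖u i‖ - ‖v i‖), sq_nonneg ‖u i‖, sq_nonneg ‖v i‖]
    _ = ENNReal.ofReal (∑ i ∈ Finset.range (m n), D * (‖u i‖ ^ 2 + ‖v i‖ ^ 2)) * L n := by
        rw [← Finset.sum_mul, ENNReal.ofReal_sum_of_nonneg]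
        intro i _
        positivity
    _ ≤ ENNReal.ofReal A * L n := by
        gcongr
        rw [hA, ← Finset.mul_sum, Finset.sum_add_distrib]
        refine mul_le_mul_of_nonneg_left (add_le_add ?_ ?_) hD
        · exact hu.sum_le_tsum _ fun _ _ => by positivity
        · exact hv.sum_le_tsum _ fun _ _ => by positivity

theorem csb (h1 : S_SM) : S_CSB := by
  intro S _ μ _ φ N K hN u v hR w hw a τ r hτ hτr hcut x hx
  classical
  have hHT := Pool.Agent.Y948.RO.main
  have hCTG := Pool.Agent.Y108.RO.main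
  have hMV := Pool.Agent.Y510.RO.MV.main
  have hPOM := Pool.Agent.Y839.RO.main
  obtain ⟨hRu, hRv, -⟩ := id hR
  have hTRC := (Pool.Agent.Y77.NK.main_trc _ K u v hR).2.2.1
  obtain ⟨Θ, g, C, c1, c2, c3, c4, c5, c6, c7, c8⟩ := hcut
  have hr : 0 < r := hτ.trans hτr
  obtain ⟨K0, hK0, hK⟩ := hHT r hr
  have hC0 : 0 ≤ C := (norm_nonneg _).trans (c5 0 0)
  have hΘ : ∀ n, CO (Θ n) a τ r := fun n => ⟨(c1 n).of_le (by exact_mod_cast le_top), c2 n, c3 n⟩
  -- constants
  set V : ℝ := √(∑' j, ‖v j‖ ^ 2) with hV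
  set U : ℝ := √(∑' j, ‖u j‖ ^ 2) with hU
  have hV0 : 0 ≤ V := Real.sqrt_nonneg _
  have hU0 : 0 ≤ U := Real.sqrt_nonneg _
  have hUm : ∀ m, √(∑ j ∈ Finset.range m, ‖u j‖ ^ 2) ≤ U := fun m =>
    Real.sqrt_le_sqrt (hRu.sum_le_tsum _ fun _ _ => by positivity)
  have hVm : ∀ m, √(∑ j ∈ Finset.range m, ‖v j‖ ^ 2) ≤ V := fun m =>
    Real.sqrt_le_sqrt (hRv.sum_le_tsum _ fun _ _ => by positivity)
  set D0 : ℝ := 2 / τ * ‖x‖ with hD0
  have hD00 : 0 ≤ D0 := by positivity
  have kb : ∀ i z, τ ≤ ‖z - a‖ → ‖ct φ (v i) x z‖ ≤ D0 * ‖v i‖ := fun i z hz =>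
    (Kbound hMV hN (v i) x a τ hτ hx z hz).trans_eq (by rw [hD0]; ring)
  have kbn : ∀ m z, τ ≤ ‖z - a‖ → nm m (fun i => ct φ (v i) x z) ≤ D0 * V := by
    intro m z hz
    unfold nm
    have e1 : ∑ i ∈ Finset.range m, ‖ct φ (v i) x z‖ ^ 2 ≤
        D0 ^ 2 * ∑ j ∈ Finset.range m, ‖v j‖ ^ 2 := by
      rw [Finset.mul_sum]
      refine Finset.sum_le_sum fun i _ => ?_
      rw [← mul_pow]
      exact pow_le_pow_left₀ (norm_nonneg _) (kb i z hz) 2
    refine (Real.sqrt_le_sqrt e1).trans ?_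
    rw [Real.sqrt_mul (by positivity), Real.sqrt_sq hD00]
    exact mul_le_mul_of_nonneg_left (hVm m) hD00
  -- the choice of the ranks
  have hballs : ball a r ⊆ ball (0 : ℂ) (‖a‖ + r) := by
    intro z hz
    rw [mem_ball, dist_eq_norm] at hz ⊢
    rw [sub_zero]
    calc ‖z‖ = ‖(z - a) + a‖ := by rw [sub_add_cancel]
      _ ≤ ‖z - a‖ + ‖a‖ := norm_add_le _ _
      _ < ‖a‖ + r := by linarith
  have hm : ∀ n : ℕ, ∃ m : ℕ, 1 ≤ m ∧ n ≤ m ∧
      ∫⁻ z in ball a r, ‖sm φ u v m z - w z‖ₑ ≤ ENNReal.ofReal (1 / ((n : ℝ) + 1)) := by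
    intro n
    have h2 := hw.lim (‖a‖ + r)
    have h3 : (0 : ℝ≥0∞) < ENNReal.ofReal (1 / ((n : ℝ) + 1)) :=
      ENNReal.ofReal_pos.2 (by positivity)
    have h4 := (h2.eventually (ge_mem_nhds h3)).and (eventually_ge_atTop (max 1 n))
    obtain ⟨m, h5, h6⟩ := h4.exists
    refine ⟨m, (le_max_left _ _).trans h6, (le_max_right _ _).trans h6, le_trans ?_ h5⟩
    exact lintegral_mono_set hballs
  choose m hm1 hm2 hm3 using hm
  have hmt : Tendsto m atTop atTop := tendsto_atTop_mono hm2 tendsto_id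
  -- the error
  set L : ℕ → ℝ≥0∞ := fun n => ∫⁻ z, ‖(sm φ u v (m n) z : ℂ) * g n z - db (Θ n) z‖ₑ with hL
  have hLt : Tendsto L atTop (𝓝 0) := by
    have h2 : ∀ n, L n ≤ (∫⁻ z, ‖(w z : ℂ) * g n z - db (Θ n) z‖ₑ) +
        ENNReal.ofReal C * ENNReal.ofReal (1 / ((n : ℝ) + 1)) := by
      intro n
      have hmeas : Measurable fun z => ‖(w z : ℂ) * g n z - db (Θ n) z‖ₑ := by
        have h3 : Measurable (db (Θ n)) := (hPOM.2.2.2.2.1 (Θ n) (hΘ n).smooth).measurable
        exact (((Complex.measurable_ofReal.comp hw.meas).mul (c4 n)).sub h3).enorm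
      calc L n ≤ ∫⁻ z, (‖(w z : ℂ) * g n z - db (Θ n) z‖ₑ +
            (ball a r).indicator (fun z => ENNReal.ofReal C * ‖sm φ u v (m n) z - w z‖ₑ) z) := by
            refine lintegral_mono fun z => ?_
            have e1 : (sm φ u v (m n) z : ℂ) * g n z - db (Θ n) z =
                ((w z : ℂ) * g n z - db (Θ n) z) + ((sm φ u v (m n) z - w z : ℝ) : ℂ) * g n z := by
              push_cast
              ring
            show ‖(sm φ u v (m n) z : ℂ) * g n z - db (Θ n) z‖ₑ ≤ _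
            rw [e1]
            refine (enorm_add_le _ _).trans ?_
            gcongr
            by_cases hz : z ∈ ball a r
            · rw [indicator_of_mem hz, enorm_mul, mul_comm]
              refine mul_le_mul' ?_ ?_
              · rw [← ofReal_norm]
                exact ENNReal.ofReal_le_ofReal (c5 n z)
              · rw [← ofReal_norm, ← ofReal_norm, Complex.norm_real]
            · rw [mem_ball, dist_eq_norm, not_lt] at hz
              rw [c7 n z hz]
              simp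
        _ = (∫⁻ z, ‖(w z : ℂ) * g n z - db (Θ n) z‖ₑ) +
            ∫⁻ z in ball a r, ENNReal.ofReal C * ‖sm φ u v (m n) z - w z‖ₑ := by
            rw [lintegral_add_left hmeas, lintegral_indicator measurableSet_ball]
        _ ≤ _ := by
            rw [lintegral_const_mul' _ _ ENNReal.ofReal_ne_top]
            gcongr
            exact hm3 n
    have h3 : Tendsto (fun n : ℕ => (∫⁻ z, ‖(w z : ℂ) * g n z - db (Θ n) z‖ₑ) +
        ENNReal.ofReal C * ENNReal.ofReal (1 / ((n : ℝ) + 1))) atTop (𝓝 0) := by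
      have h4 : Tendsto (fun n : ℕ => ENNReal.ofReal C * ENNReal.ofReal (1 / ((n : ℝ) + 1)))
          atTop (𝓝 0) := by
        have h5 := ENNReal.Tendsto.const_mul (a := ENNReal.ofReal C)
          (ENNReal.tendsto_ofReal tendsto_one_div_add_atTop_nhds_zero_nat)
          (Or.inr ENNReal.ofReal_ne_top)
        rwa [ENNReal.ofReal_zero, mul_zero] at h5
      have h5 := c8.add h4
      rwa [add_zero] at h5
    exact tendsto_of_tendsto_of_tendsto_of_le_of_le tendsto_const_nhds h3 (fun _ => bot_le) h2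
  -- the solutions
  have ctm : ∀ i, Measurable (ct φ (v i) x) := fun i => (hCTG S μ φ hN.meas (v i) x).1
  have hsm : ∀ n, ∃ h : ℕ → ℂ → ℂ, (∀ j, Measurable (h j)) ∧
      ∀ z, (∀ i < m n, Am φ u v (m n) z (fun j => h j z) i =
        (sm φ u v (m n) z : ℂ) * (g n z * ct φ (v i) x z)) ∧
        nm (m n) (fun j => h j z) ≤ nm (m n) (fun j => g n z * ct φ (v j) x z) := by
    intro n
    exact (h1 S μ φ hN.meas u v (m n) (hm1 n)).2.2.2 (fun i z => g n z * ct φ (v i) x z)
      (fun i => (c4 n).mul (ctm i))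
  choose h hh1 hh2 using hsm
  -- bounds for products
  have hnb : ∀ (P : ℂ → ℂ) (B : ℝ), 0 ≤ B →
      (∀ z, τ ≤ ‖z - a‖ → ‖z - a‖ ≤ r → ‖P z‖ ≤ B) → ∀ n z,
      nm (m n) (fun j => P z * h n j z) ≤ B * (C * (D0 * V)) := by
    intro P B hB0 hB n z
    rw [nm_mul]
    have h2 := (hh2 n z).2
    rw [nm_mul] at h2
    by_cases hz1 : z ∈ ball a τ
    · rw [c6 n z hz1, norm_zero, zero_mul] at h2
      have h3 : nm (m n) (fun j => h n j z) = 0 := le_antisymm h2 (nm_nonneg _ _)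
      rw [h3, mul_zero]
      positivity
    · rw [mem_ball, dist_eq_norm, not_lt] at hz1
      by_cases hz2 : ‖z - a‖ ≤ r
      · exact mul_le_mul (hB z hz1 hz2)
          (h2.trans (mul_le_mul (c5 n z) (kbn _ z hz1) (nm_nonneg _ _) hC0)) (nm_nonneg _ _) hB0
      · rw [c7 n z (not_le.mp hz2).le, norm_zero, zero_mul] at h2
        have h3 : nm (m n) (fun j => h n j z) = 0 := le_antisymm h2 (nm_nonneg _ _)
        rw [h3, mul_zero]
        positivity
  have hsup : ∀ n, ∀ j < m n, ∀ z, z ∉ ball a r → h n j z = 0 := by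
    intro n j hj z hz
    rw [mem_ball, dist_eq_norm, not_lt] at hz
    have h2 := (hh2 n z).2
    rw [nm_mul, c7 n z hz, norm_zero, zero_mul] at h2
    have h3 := (coord_le (fun j => h n j z) hj).trans h2
    exact norm_le_zero_iff.1 h3
  have hbd : ∀ (P : ℂ → ℂ) (B : ℝ), Measurable P → 0 ≤ B →
      (∀ z, τ ≤ ‖z - a‖ → ‖z - a‖ ≤ r → ‖P z‖ ≤ B) → ∀ n, ∀ j < m n,
      Bd (fun z => P z * h n j z) a r (B * (C * (D0 * V))) := by
    intro P B hP hB0 hB n j hj
    refine ⟨hP.mul (hh1 n j), by positivity, ?_, ?_⟩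
    · intro z
      exact (coord_le (fun j => P z * h n j z) hj).trans (hnb P B hB0 hB n z)
    · intro z hz
      show P z * h n j z = 0
      rw [hsup n j hj z hz, mul_zero]
  -- the main computation
  have hcore : ∀ (P : ℂ → ℂ) (B : ℝ), Measurable P → 0 ≤ B →
      (∀ z, τ ≤ ‖z - a‖ → ‖z - a‖ ≤ r → ‖P z‖ ≤ B) →
      (∀ n, ‖YY φ u (m n) (fun j z => P z * h n j z)‖ ≤ K0 * (B * (C * (D0 * V))) * U) ∧
      (∀ n, (N + fr u v (m n)) (YY φ u (m n) (fun j z => P z * h n j z)) -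
        a • YY φ u (m n) (fun j z => P z * h n j z) =
        YY φ u (m n) (fun j z => (z - a) * (P z * h n j z)) -
        ∑ i ∈ Finset.range (m n),
          (∫ z, P z * ((sm φ u v (m n) z : ℂ) * (g n z * ct φ (v i) x z))) • u i) ∧
      ∀ n, ∀ i < m n, Integrable (fun z => P z * ((sm φ u v (m n) z : ℂ) *
        (g n z * ct φ (v i) x z))) := by
    intro P B hP hB0 hB
    have hstep := fun n => YY_step hN u v (m n) a r (B * (C * (D0 * V))) hr
      (fun j z => P z * h n j z) (hbd P B hP hB0 hB n)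
    have hAm : ∀ n, ∀ i < m n, (fun z => Am φ u v (m n) z (fun j => P z * h n j z) i) =
        fun z => P z * ((sm φ u v (m n) z : ℂ) * (g n z * ct φ (v i) x z)) := by
      intro n i hi
      funext z
      rw [Am_mul, (hh2 n z).1 i hi]
    refine ⟨fun n => ?_, fun n => ?_, fun n i hi => ?_⟩
    · have h3 := YY_norm hN hK0 hK u (m n) a (B * (C * (D0 * V))) (by positivity)
        (fun j z => P z * h n j z) (fun j hj => hP.mul (hh1 n j))
        (fun j hj z hz => by
          show P z * h n j z = 0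
          rw [hsup n j hj z hz, mul_zero]) (hnb P B hB0 hB n)
      exact h3.trans (mul_le_mul_of_nonneg_left (hUm (m n)) (by positivity))
    · rw [(hstep n).2]
      congr 1
      refine Finset.sum_congr rfl fun i hi => ?_
      rw [hAm n i (Finset.mem_range.1 hi)]
    · have h3 := (hstep n).1 i hi
      rwa [hAm n i hi] at h3
  -- the powers cut off
  set χ : ℕ → ℂ → ℂ := fun k => (ball a (τ / 2)).indicator (fun z => (z - a) ^ k) with hχ
  have hχm : ∀ k, Measurable (χ k) := fun k => by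
    apply Measurable.indicator _ measurableSet_ball
    fun_prop
  have hχb : ∀ k z, ‖χ k z‖ ≤ r ^ k := by
    intro k z
    by_cases hz : z ∈ ball a (τ / 2)
    · simp only [hχ, indicator_of_mem hz, norm_pow]
      rw [mem_ball, dist_eq_norm] at hz
      exact pow_le_pow_left₀ (norm_nonneg _) (by linarith) k
    · simp only [hχ, indicator_of_notMem hz, norm_zero]
      positivity
  have hχe : ∀ k, ∀ z ∈ ball a (τ / 2), χ k z = (z - a) ^ k := fun k z hz => by
    simp only [hχ, indicator_of_mem hz]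
  have hχs : ∀ k l, (l - a) * χ k l = χ (k + 1) l - 0 := by
    intro k l
    by_cases hz : l ∈ ball a (τ / 2)
    · rw [hχe k l hz, hχe (k + 1) l hz]
      ring
    · simp only [hχ, indicator_of_notMem hz]
      ring
  have hx0 : mv φ x (χ 0) = x := by
    obtain ⟨e, -, -, -⟩ := hMV S μ φ N hN x (χ 0) (r ^ 0) (hχm 0) (by positivity)
      (fun s => hχb 0 _)
    apply Lp.ext
    filter_upwards [e, hx] with s h1 h2
    rw [h1]
    by_cases hz : φ s ∈ ball a (τ / 2)
    · rw [hχe 0 _ hz, pow_zero, one_mul]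
    · rw [h2 hz, mul_zero]
  have hpi : (Real.pi : ℂ) ≠ 0 := by exact_mod_cast Real.pi_ne_zero
  have hpi' : ‖(1 / Real.pi : ℂ)‖ = 1 / Real.pi := by
    rw [norm_div, norm_one, Complex.norm_real, Real.norm_eq_abs, abs_of_pos Real.pi_pos]
  -- the sums with small coefficients
  have herr : ∀ (P : ℂ → ℂ) (B : ℝ), Measurable P → 0 ≤ B →
      (∀ z, τ ≤ ‖z - a‖ → ‖z - a‖ ≤ r → ‖P z‖ ≤ B) →
      (∀ n i, Integrable (fun z => P z * db (Θ n) z * ct φ (v i) x z)) →
      Tendsto (fun n => (1 / Real.pi : ℂ) • ∑ i ∈ Finset.range (m n),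
        ((∫ z, P z * ((sm φ u v (m n) z : ℂ) * (g n z * ct φ (v i) x z))) -
          ∫ z, P z * db (Θ n) z * ct φ (v i) x z) • u i) atTop (𝓝 0) := by
    intro P B hP hB0 hB hI
    have h2 : Tendsto (fun n => ∑ i ∈ Finset.range (m n),
        ((∫ z, P z * ((sm φ u v (m n) z : ℂ) * (g n z * ct φ (v i) x z))) -
          ∫ z, P z * db (Θ n) z * ct φ (v i) x z) • u i) atTop (𝓝 0) := by
      refine sum_small u v hRu hRv (B * D0) (by positivity) m L hLt _ ?_
      intro n i hi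
      rw [← integral_sub ((hcore P B hP hB0 hB).2.2 n i hi) (hI n i)]
      have e1 : ∀ z, P z * ((sm φ u v (m n) z : ℂ) * (g n z * ct φ (v i) x z)) -
          P z * db (Θ n) z * ct φ (v i) x z =
          (P z * ct φ (v i) x z) * ((sm φ u v (m n) z : ℂ) * g n z - db (Θ n) z) :=
        fun z => by ring
      simp_rw [e1]
      refine (err_int (a := a) (τ := τ) (r := r) (fun z => P z * ct φ (v i) x z) _
        (B * (D0 * ‖v i‖)) ?_ ?_ ?_).trans_eq ?_
      · intro z hz
        rw [c6 n z hz, (hΘ n).db_in hPOM z hz, mul_zero, sub_zero]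
      · intro z hz
        rw [c7 n z hz.le, (hΘ n).db_out hPOM z hz, mul_zero, sub_zero]
      · intro z hz1 hz2
        rw [norm_mul]
        exact mul_le_mul (hB z hz1 hz2) (kb i z hz1) (norm_nonneg _) hB0
      · rw [← mul_assoc B D0]
    have h3 := h2.const_smul (1 / Real.pi : ℂ)
    rwa [smul_zero] at h3
  -- bounded vectors and the error of finite rank
  have hfin : ∀ (Y : ℕ → Lp ℂ 2 μ) (B : ℝ), (∀ n, ‖Y n‖ ≤ B) →
      Tendsto (fun n => (K - fr u v (m n)) (Y n)) atTop (𝓝 0) := by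
    intro Y B hY
    have h2 : Tendsto (fun n => K - fr u v (m n)) atTop (𝓝 0) := by
      have h3 := (hTRC.comp hmt).const_sub K
      rwa [sub_self] at h3
    have h4 : Tendsto (fun n => ‖K - fr u v (m n)‖ * B) atTop (𝓝 0) := by
      have h5 := h2.norm.mul_const B
      rwa [norm_zero, zero_mul] at h5
    refine squeeze_zero_norm (fun n => ?_) h4
    exact (ContinuousLinearMap.le_opNorm _ _).trans
      (mul_le_mul_of_nonneg_left (hY n) (norm_nonneg _))
  -- the data for the powers and for the inverse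
  have hpow : ∀ k : ℕ, ∀ z, τ ≤ ‖z - a‖ → ‖z - a‖ ≤ r → ‖(z - a) ^ k‖ ≤ r ^ k := fun k z _ hz => by
    rw [norm_pow]
    exact pow_le_pow_left₀ (norm_nonneg _) hz k
  have hinv : ∀ z, τ ≤ ‖z - a‖ → ‖z - a‖ ≤ r → ‖(z - a)⁻¹‖ ≤ τ⁻¹ := fun z hz _ => by
    rw [norm_inv]
    exact inv_anti₀ hτ hz
  have hpm : ∀ k : ℕ, Measurable fun z : ℂ => (z - a) ^ k := fun k => by fun_prop
  have him : Measurable fun z : ℂ => (z - a)⁻¹ := by fun_prop
  set A : ℝ := C * (D0 * V) with hA
  have hA0 : 0 ≤ A := by positivity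
  have hXb : ∀ n k, ‖mv φ x (χ k) - (1 / Real.pi : ℂ) •
      YY φ u (m n) (fun j z => (z - a) ^ k * h n j z)‖ ≤
      (‖x‖ + 1 / Real.pi * (K0 * A * U)) * r ^ k := by
    intro n k
    have h3 := (hcore (fun z => (z - a) ^ k) (r ^ k) (hpm k) (by positivity) (hpow k)).1 n
    obtain ⟨-, h4, -, -⟩ := hMV S μ φ N hN x (χ k) (r ^ k) (hχm k) (by positivity)
      (fun s => hχb k _)
    calc _ ≤ ‖mv φ x (χ k)‖ + ‖(1 / Real.pi : ℂ) •
          YY φ u (m n) (fun j z => (z - a) ^ k * h n j z)‖ := norm_sub_le _ _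
      _ ≤ r ^ k * ‖x‖ + 1 / Real.pi * (K0 * (r ^ k * A) * U) := by
          rw [norm_smul, hpi']
          gcongr
      _ = (‖x‖ + 1 / Real.pi * (K0 * A * U)) * r ^ k := by ring
  have hZb : ∀ n, ‖(1 / Real.pi : ℂ) • YY φ u (m n) (fun j z => (z - a)⁻¹ * h n j z)‖ ≤
      1 / Real.pi * (K0 * (τ⁻¹ * A) * U) := by
    intro n
    have h3 := (hcore (fun z => (z - a)⁻¹) τ⁻¹ him (by positivity) hinv).1 n
    rw [norm_smul, hpi']
    gcongr
  refine ⟨fun n k => mv φ x (χ k) - (1 / Real.pi : ℂ) •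
      YY φ u (m n) (fun j z => (z - a) ^ k * h n j z),
    fun n => (1 / Real.pi : ℂ) • YY φ u (m n) (fun j z => (z - a)⁻¹ * h n j z),
    (‖x‖ + 1 / Real.pi * (K0 * A * U)) + 1 / Real.pi * (K0 * (τ⁻¹ * A) * U),
    ?_, ?_, ?_, ?_⟩
  · intro n k
    refine (hXb n k).trans (mul_le_mul_of_nonneg_right ?_ (by positivity))
    have : 0 ≤ 1 / Real.pi * (K0 * (τ⁻¹ * A) * U) := by positivity
    linarith
  · intro n
    refine (hZb n).trans ?_
    have : 0 ≤ ‖x‖ + 1 / Real.pi * (K0 * A * U) := by positivity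
    linarith
  · intro k
    have hI : ∀ n i, Integrable (fun z => (z - a) ^ k * db (Θ n) z * ct φ (v i) x z) :=
      fun n i => (pair_pow hCTG hMV hPOM hN (v i) x (hΘ n) hτ hr hx k (χ k) (hχm k) (r ^ k)
        (by positivity) (hχb k) (hχe k)).1
    have hl := herr (fun z => (z - a) ^ k) (r ^ k) (hpm k) (by positivity) (hpow k) hI
    have hf := hfin (fun n => mv φ x (χ k) - (1 / Real.pi : ℂ) •
      YY φ u (m n) (fun j z => (z - a) ^ k * h n j z)) _ (fun n => hXb n k)
    have hs := hl.add hf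
    rw [add_zero] at hs
    refine hs.congr (fun n => ?_)
    have i2 := (hcore (fun z => (z - a) ^ k) (r ^ k) (hpm k) (by positivity) (hpow k)).2.1 n
    have e0 : (fun (j : ℕ) (z : ℂ) => (z - a) * ((z - a) ^ k * h n j z)) =
        fun j z => (z - a) ^ (k + 1) * h n j z := by
      funext j z; ring
    rw [e0] at i2
    have e2 := mv_step hMV hN x (χ k) (χ (k + 1)) (r ^ k) (r ^ (k + 1)) a 0 (hχm k)
      (by positivity) (fun s => hχb k _) (hχm (k + 1)) (by positivity) (fun s => hχb (k + 1) _)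
      (hχs k)
    have e3 : (N + fr u v (m n)) (mv φ x (χ k)) - a • mv φ x (χ k) =
        mv φ x (χ (k + 1)) + ∑ i ∈ Finset.range (m n), ⟪v i, mv φ x (χ k)⟫_ℂ • u i := by
      rw [_root_.add_apply, add_sub_right_comm, e2, zero_smul, sub_zero, fr_apply]
    have e4 : (1 / Real.pi : ℂ) • ∑ i ∈ Finset.range (m n),
        ((∫ z, (z - a) ^ k * ((sm φ u v (m n) z : ℂ) * (g n z * ct φ (v i) x z))) -
          ∫ z, (z - a) ^ k * db (Θ n) z * ct φ (v i) x z) • u i =
        (1 / Real.pi : ℂ) • (∑ i ∈ Finset.range (m n),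
          (∫ z, (z - a) ^ k * ((sm φ u v (m n) z : ℂ) * (g n z * ct φ (v i) x z))) • u i) +
          ∑ i ∈ Finset.range (m n), ⟪v i, mv φ x (χ k)⟫_ℂ • u i := by
      rw [Finset.smul_sum, Finset.smul_sum, ← Finset.sum_add_distrib]
      refine Finset.sum_congr rfl fun i _ => ?_
      rw [(pair_pow hCTG hMV hPOM hN (v i) x (hΘ n) hτ hr hx k (χ k) (hχm k) (r ^ k)
        (by positivity) (hχb k) (hχe k)).2, smul_smul, smul_smul, ← add_smul]
      congr 1
      field_simp
      ring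
    have e5 : ∀ y : Lp ℂ 2 μ, (N + K) y = (N + fr u v (m n)) y + (K - fr u v (m n)) y := by
      intro y
      simp only [_root_.add_apply, _root_.sub_apply]
      abel
    rw [e4, e5]
    set Q := (K - fr u v (m n)) (mv φ x (χ k) - (1 / Real.pi : ℂ) •
      YY φ u (m n) (fun j z => (z - a) ^ k * h n j z)) with hQ
    rw [map_sub (N + fr u v (m n)), map_smul (N + fr u v (m n)), eq_add_of_sub_eq e3,
      eq_add_of_sub_eq i2]
    simp only [smul_sub, smul_add, smul_smul]
    rw [mul_comm (1 / Real.pi : ℂ) a]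
    abel
  · have hI : ∀ n i, Integrable (fun z => (z - a)⁻¹ * db (Θ n) z * ct φ (v i) x z) :=
      fun n i => (pair_inv hHT hCTG hPOM hN (v i) x (hΘ n) hτ hr hx).1
    have hl := herr (fun z => (z - a)⁻¹) τ⁻¹ him (by positivity) hinv hI
    have hf := (hfin (fun n => (1 / Real.pi : ℂ) •
      YY φ u (m n) (fun j z => (z - a)⁻¹ * h n j z)) _ (fun n => hZb n)).neg
    rw [neg_zero] at hf
    have hs := hl.add hf
    rw [add_zero] at hs
    refine hs.congr (fun n => ?_)
    have i2 := (hcore (fun z => (z - a)⁻¹) τ⁻¹ him (by positivity) hinv).2.1 n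
    have hz0 : ∀ j < m n, ∀ z, (z - a) * ((z - a)⁻¹ * h n j z) = (z - a) ^ 0 * h n j z := by
      intro j hj z
      by_cases hz : z = a
      · have h3 := (hh2 n z).2
        rw [nm_mul, hz, c6 n a (mem_ball_self hτ), norm_zero, zero_mul] at h3
        have h4 := norm_le_zero_iff.1 ((coord_le (fun j => h n j a) hj).trans h3)
        rw [hz, h4]
        simp
      · have : z - a ≠ 0 := sub_ne_zero.mpr hz
        field_simp
    have e0 : YY φ u (m n) (fun j z => (z - a) * ((z - a)⁻¹ * h n j z)) =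
        YY φ u (m n) (fun j z => (z - a) ^ 0 * h n j z) := by
      unfold YY
      refine Finset.sum_congr rfl fun j hj => ?_
      congr 2
      funext z
      exact hz0 j (Finset.mem_range.1 hj) z
    rw [e0] at i2
    have e4 : (1 / Real.pi : ℂ) • ∑ i ∈ Finset.range (m n),
        ((∫ z, (z - a)⁻¹ * ((sm φ u v (m n) z : ℂ) * (g n z * ct φ (v i) x z))) -
          ∫ z, (z - a)⁻¹ * db (Θ n) z * ct φ (v i) x z) • u i =
        (1 / Real.pi : ℂ) • (∑ i ∈ Finset.range (m n),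
          (∫ z, (z - a)⁻¹ * ((sm φ u v (m n) z : ℂ) * (g n z * ct φ (v i) x z))) • u i) := by
      congr 1
      refine Finset.sum_congr rfl fun i _ => ?_
      rw [(pair_inv hHT hCTG hPOM hN (v i) x (hΘ n) hτ hr hx).2, sub_zero]
    have e5 : ∀ y : Lp ℂ 2 μ, (N + K) y = (N + fr u v (m n)) y + (K - fr u v (m n)) y := by
      intro y
      simp only [_root_.add_apply, _root_.sub_apply]
      abel
    beta_reduce
    rw [e4, e5, hx0]
    set Q := (K - fr u v (m n)) ((1 / Real.pi : ℂ) •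
      YY φ u (m n) (fun j z => (z - a)⁻¹ * h n j z)) with hQ
    rw [map_smul (N + fr u v (m n)), eq_add_of_sub_eq i2]
    simp only [smul_sub, smul_add, smul_smul]
    rw [mul_comm (1 / Real.pi : ℂ) a]
    abel

end Pool.Agent.Q169.TC
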