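import Pool.Agent.Q130.TC.Stm2
import Pool.Agent.Y941.RO.CUTV
import Pool.Agent.Y948.RO.HT
import Pool.Agent.Y510.RO.MV
import Pool.Agent.Y108.RO.CTG
import Pool.Agent.Y839.RO.POM

/-!
# Project TC (helper130): sums of the vectors `ht (h j) (φ) u_j`
-/

set_option autoImplicit false

namespace Pool.Agent.Q169.TC

open MeasureTheory Set Metric Filter Topology
open scoped InnerProductSpace ENNReal NNReal ComplexConjugate ContDiff
open Pool.Agent.Y283.NK (ct IsMul HasHyp Repr fr)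
open Pool.Agent.Y271.RO
open Pool.Agent.Q130.TC (nm Am sm VV IsW)

/-! ### the norm of the first coordinates -/

lemma nm_nonneg (m : ℕ) (c : ℕ → ℂ) : 0 ≤ nm m c := Real.sqrt_nonneg _

lemma nm_sq (m : ℕ) (c : ℕ → ℂ) : nm m c ^ 2 = ∑ i ∈ Finset.range m, ‖c i‖ ^ 2 :=
  Real.sq_sqrt (Finset.sum_nonneg fun _ _ => by positivity)

lemma coord_le {m : ℕ} (c : ℕ → ℂ) {i : ℕ} (hi : i < m) : ‖c i‖ ≤ nm m c := by
  unfold nm
  refine Real.le_sqrt_of_sq_le ?_
  exact Finset.single_le_sum (f := fun i => ‖c i‖ ^ 2) (fun _ _ => by positivity)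
    (Finset.mem_range.2 hi)

lemma nm_congr {m : ℕ} {c d : ℕ → ℂ} (h : ∀ i < m, c i = d i) : nm m c = nm m d := by
  unfold nm
  congr 1
  exact Finset.sum_congr rfl fun i hi => by rw [h i (Finset.mem_range.1 hi)]

lemma nm_mul (m : ℕ) (p : ℂ) (c : ℕ → ℂ) : nm m (fun j => p * c j) = ‖p‖ * nm m c := by
  unfold nm
  have : ∑ i ∈ Finset.range m, ‖p * c i‖ ^ 2 = ‖p‖ ^ 2 * ∑ i ∈ Finset.range m, ‖c i‖ ^ 2 := by
    rw [Finset.mul_sum]
    exact Finset.sum_congr rfl fun i _ => by rw [norm_mul, mul_pow]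
  rw [this, Real.sqrt_mul (by positivity), Real.sqrt_sq (norm_nonneg _)]

/-- the inequality of Cauchy and Schwarz -/
lemma norm_sum_mul_le (m : ℕ) (c d : ℕ → ℂ) :
    ‖∑ j ∈ Finset.range m, c j * d j‖ ≤ nm m c * nm m d := by
  calc ‖∑ j ∈ Finset.range m, c j * d j‖ ≤ ∑ j ∈ Finset.range m, ‖c j‖ * ‖d j‖ := by
        refine (norm_sum_le _ _).trans_eq (Finset.sum_congr rfl fun j _ => norm_mul _ _)
    _ ≤ nm m c * nm m d := Real.sum_mul_le_sqrt_mul_sqrt _ _ _

section base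

variable {S : Type} [MeasurableSpace S] {μ : Measure S}

/-- the sum of the vectors -/
noncomputable def YY (φ : S → ℂ) (u : ℕ → Lp ℂ 2 μ) (m : ℕ) (h : ℕ → ℂ → ℂ) : Lp ℂ 2 μ :=
  ∑ j ∈ Finset.range m, mv φ (u j) (ht (h j))

lemma fr_apply (u v : ℕ → Lp ℂ 2 μ) (m : ℕ) (x : Lp ℂ 2 μ) :
    fr u v m x = ∑ j ∈ Finset.range m, ⟪v j, x⟫_ℂ • u j := by
  unfold fr
  rw [_root_.sum_apply]
  exact Finset.sum_congr rfl fun j _ => by simp

lemma Am_mul (φ : S → ℂ) (u v : ℕ → Lp ℂ 2 μ) (m : ℕ) (z p : ℂ) (c : ℕ → ℂ) (i : ℕ) :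
    Am φ u v m z (fun j => p * c j) i = p * Am φ u v m z c i := by
  unfold Am
  rw [mul_sub, Finset.mul_sum]
  congr 1
  exact Finset.sum_congr rfl fun j _ => by ring

variable [SigmaFinite μ]

theorem YY_step {φ : S → ℂ} {N : Lp ℂ 2 μ →L[ℂ] Lp ℂ 2 μ} (hN : IsMul φ N)
    (u v : ℕ → Lp ℂ 2 μ) (m : ℕ) (a : ℂ) (r M : ℝ) (hr : 0 < r) (h : ℕ → ℂ → ℂ)
    (hb : ∀ j < m, Bd (h j) a r M) :
    (∀ i < m, Integrable (fun z => Am φ u v m z (fun j => h j z) i)) ∧
    (N + fr u v m) (YY φ u m h) - a • YY φ u m h = YY φ u m (fun j z => (z - a) * h j z) -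
      ∑ i ∈ Finset.range m, (∫ z, Am φ u v m z (fun j => h j z) i) • u i := by
  obtain ⟨K, hK0, hK⟩ := Pool.Agent.Y948.RO.main r hr
  have hCTG := Pool.Agent.Y108.RO.main
  have hMV := Pool.Agent.Y510.RO.MV.main
  have hint : ∀ j < m, Integrable (h j) := fun j hj => (hK a M (h j) (hb j hj)).1
  have hct : ∀ i, ∀ j < m, Integrable (fun z => h j z * ct φ (v i) (u j) z) := fun i j hj =>
    ((hCTG S μ φ hN.meas (v i) (u j)).2.2 a r M (h j) (hb j hj)).1
  have hct2 : ∀ i, ∀ j < m, ⟪v i, mv φ (u j) (ht (h j))⟫_ℂ =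
      ∫ z, h j z * ct φ (v i) (u j) z := by
    intro i j hj
    obtain ⟨i1, i2, i3, i4, i5⟩ := hK a M (h j) (hb j hj)
    obtain ⟨-, -, -, m4⟩ := hMV S μ φ N hN (u j) (ht (h j)) (K * M) i2
      (mul_nonneg hK0 (hb j hj).nonneg) (fun s => i4 _)
    rw [m4 (v i)]
    exact ((hCTG S μ φ hN.meas (v i) (u j)).2.2 a r M (h j) (hb j hj)).2
  have hAm : ∀ i < m, Integrable (fun z => Am φ u v m z (fun j => h j z) i) := by
    intro i hi
    unfold Am
    refine (hint i hi).sub (integrable_finsetSum _ fun j hj => ?_)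
    refine (hct i j (Finset.mem_range.1 hj)).congr (Eventually.of_forall fun z => ?_)
    show h j z * ct φ (v i) (u j) z = ct φ (v i) (u j) z * h j z
    ring
  refine ⟨hAm, ?_⟩
  have hAm2 : ∀ i < m, ∫ z, Am φ u v m z (fun j => h j z) i =
      (∫ z, h i z) - ∑ j ∈ Finset.range m, ∫ z, h j z * ct φ (v i) (u j) z := by
    intro i hi
    unfold Am
    have hs : ∀ j ∈ Finset.range m, Integrable (fun z => ct φ (v i) (u j) z * h j z) := by
      intro j hj
      refine (hct i j (Finset.mem_range.1 hj)).congr (Eventually.of_forall fun z => ?_)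
      show h j z * ct φ (v i) (u j) z = ct φ (v i) (u j) z * h j z
      ring
    rw [integral_sub (hint i hi) (integrable_finsetSum _ hs), integral_finsetSum _ hs]
    congr 1
    refine Finset.sum_congr rfl fun j _ => ?_
    congr 1
    funext z
    ring
  -- the multiplication operator
  have hstep : ∀ j < m, N (mv φ (u j) (ht (h j))) - a • mv φ (u j) (ht (h j)) =
      mv φ (u j) (ht (fun z => (z - a) * h j z)) - (∫ z, h j z) • u j := by
    intro j hj
    obtain ⟨i1, i2, i3, i4, i5⟩ := hK a M (h j) (hb j hj)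
    have hb' : Bd (fun z => (z - a) * h j z) a r (r * M) := by
      refine ⟨(measurable_id.sub_const a).mul (hb j hj).meas, mul_nonneg hr.le (hb j hj).nonneg,
        ?_, ?_⟩
      · intro z
        rw [norm_mul]
        by_cases hz : z ∈ ball a r
        · rw [mem_ball, dist_eq_norm] at hz
          exact mul_le_mul hz.le ((hb j hj).bd z) (norm_nonneg _) hr.le
        · rw [(hb j hj).supp z hz, norm_zero, mul_zero]
          exact mul_nonneg hr.le (hb j hj).nonneg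
      · intro z hz
        show (z - a) * h j z = 0
        rw [(hb j hj).supp z hz, mul_zero]
    obtain ⟨j1, j2, j3, j4, j5⟩ := hK a (r * M) _ hb'
    exact Pool.Agent.Y941.RO.mv_step hMV hN (u j) (ht (h j)) (ht (fun z => (z - a) * h j z))
      (K * M) (K * (r * M)) a (∫ z, h j z) i2 (mul_nonneg hK0 (hb j hj).nonneg) (fun s => i4 _) j2
      (mul_nonneg hK0 hb'.nonneg) (fun s => j4 _) (fun l => by rw [i5 a l]; ring)
  have hNY : N (YY φ u m h) - a • YY φ u m h = YY φ u m (fun j z => (z - a) * h j z) -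
      ∑ j ∈ Finset.range m, (∫ z, h j z) • u j := by
    unfold YY
    rw [map_sum, Finset.smul_sum, ← Finset.sum_sub_distrib, ← Finset.sum_sub_distrib]
    exact Finset.sum_congr rfl fun j hj => hstep j (Finset.mem_range.1 hj)
  have hfr : fr u v m (YY φ u m h) = ∑ i ∈ Finset.range m,
      (∑ j ∈ Finset.range m, ∫ z, h j z * ct φ (v i) (u j) z) • u i := by
    rw [fr_apply]
    refine Finset.sum_congr rfl fun i _ => ?_
    unfold YY
    rw [inner_sum]
    congr 1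
    exact Finset.sum_congr rfl fun j hj => hct2 i j (Finset.mem_range.1 hj)
  rw [_root_.add_apply, add_sub_right_comm, hNY, hfr, sub_add, ← Finset.sum_sub_distrib]
  congr 1
  refine Finset.sum_congr rfl fun i hi => ?_
  rw [hAm2 i (Finset.mem_range.1 hi), sub_smul]

/-- linear combinations of vectors `h(φ) u_j` -/
theorem sum_norm {φ : S → ℂ} {N : Lp ℂ 2 μ →L[ℂ] Lp ℂ 2 μ} (hN : IsMul φ N)
    (u : ℕ → Lp ℂ 2 μ) (m : ℕ) (M : ℝ) (hM : 0 ≤ M) (H : ℕ → ℂ → ℂ)
    (hH : ∀ j < m, Measurable (H j)) (hb : ∀ l, nm m (fun j => H j l) ≤ M) :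
    ‖∑ j ∈ Finset.range m, mv φ (u j) (H j)‖ ≤ M * √(∑ j ∈ Finset.range m, ‖u j‖ ^ 2) := by
  classical
  have hMV := Pool.Agent.Y510.RO.MV.main
  set f : Lp ℂ 2 μ := ∑ j ∈ Finset.range m, mv φ (u j) (H j) with hf
  have hae : ⇑f =ᵐ[μ] fun s => ∑ j ∈ Finset.range m, H j (φ s) * u j s := by
    have h1 : ∀ j ∈ Finset.range m, ⇑(mv φ (u j) (H j)) =ᵐ[μ] fun s => H j (φ s) * u j s := by
      intro j hj
      exact (hMV S μ φ N hN (u j) (H j) M (hH j (Finset.mem_range.1 hj)) hM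
        (fun s => (coord_le (fun j => H j (φ s)) (Finset.mem_range.1 hj)).trans (hb _))).1
    have h2 := Lp.coeFn_finsetSum (Finset.range m) (fun j => mv φ (u j) (H j))
    have h3 : ∀ᵐ s ∂μ, ∀ j ∈ Finset.range m, mv φ (u j) (H j) s = H j (φ s) * u j s :=
      (Filter.eventually_all_finset _).2 h1
    filter_upwards [h2, h3] with s e1 e2
    rw [hf, e1, Finset.sum_apply]
    exact Finset.sum_congr rfl e2
  have hsq : ∀ g : Lp ℂ 2 μ, ‖g‖ ^ 2 = ∫ s, ‖g s‖ ^ 2 ∂μ := by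
    intro g
    have h1 := MeasureTheory.L2.inner_def (𝕜 := ℂ) g g
    rw [inner_self_eq_norm_sq_to_K] at h1
    have h2 : ∫ s, ⟪g s, g s⟫_ℂ ∂μ = ((∫ s, ‖g s‖ ^ 2 ∂μ : ℝ) : ℂ) := by
      rw [← integral_complex_ofReal]
      refine integral_congr_ae (Eventually.of_forall fun s => ?_)
      show ⟪g s, g s⟫_ℂ = ((‖g s‖ ^ 2 : ℝ) : ℂ)
      rw [inner_self_eq_norm_sq_to_K]
      push_cast
      rfl
    rw [h2] at h1
    have h3 : ((‖g‖ ^ 2 : ℝ) : ℂ) = ((∫ s, ‖g s‖ ^ 2 ∂μ : ℝ) : ℂ) := by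
      rw [← h1]
      push_cast
      rfl
    exact Complex.ofReal_injective h3
  have hi : ∀ g : Lp ℂ 2 μ, Integrable (fun s => ‖g s‖ ^ 2) μ := by
    intro g
    exact (Lp.memLp g).integrable_norm_pow (by norm_num)
  have h1 : ‖f‖ ^ 2 ≤ (M * √(∑ j ∈ Finset.range m, ‖u j‖ ^ 2)) ^ 2 := by
    rw [mul_pow, Real.sq_sqrt (Finset.sum_nonneg fun _ _ => by positivity), hsq f]
    have h2 : ∑ j ∈ Finset.range m, ‖u j‖ ^ 2 = ∫ s, ∑ j ∈ Finset.range m, ‖u j s‖ ^ 2 ∂μ := by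
      rw [integral_finsetSum _ fun j _ => hi (u j)]
      exact Finset.sum_congr rfl fun j _ => hsq (u j)
    rw [h2, ← integral_const_mul]
    refine integral_mono_ae (hi f) ((integrable_finsetSum _ fun j _ => hi (u j)).const_mul _) ?_
    filter_upwards [hae] with s hs
    rw [hs]
    have h3 := norm_sum_mul_le m (fun j => H j (φ s)) (fun j => u j s)
    have h4 : ‖∑ j ∈ Finset.range m, H j (φ s) * u j s‖ ^ 2 ≤
        (nm m (fun j => H j (φ s)) * nm m (fun j => u j s)) ^ 2 :=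
      pow_le_pow_left₀ (norm_nonneg _) h3 2
    refine h4.trans ?_
    rw [mul_pow, nm_sq m (fun j => u j s)]
    refine mul_le_mul_of_nonneg_right ?_ (Finset.sum_nonneg fun _ _ => by positivity)
    exact pow_le_pow_left₀ (nm_nonneg _ _) (hb _) 2
  exact le_of_sq_le_sq h1 (mul_nonneg hM (Real.sqrt_nonneg _))

end base

/-- the Cauchy transforms of vector valued functions -/
theorem ht_nm {K r : ℝ} (hK0 : 0 ≤ K)
    (hK : ∀ (c : ℂ) (M : ℝ) (g : ℂ → ℂ), Bd g c r M →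
      Integrable g ∧ Measurable (ht g) ∧ (∀ l, Integrable (fun z => g z * (z - l)⁻¹)) ∧
      (∀ l, ‖ht g l‖ ≤ K * M) ∧
      ∀ b l : ℂ, ht (fun z => (z - b) * g z) l = (l - b) * ht g l + ∫ z, g z)
    (m : ℕ) (a : ℂ) (M : ℝ) (hM : 0 ≤ M) (h : ℕ → ℂ → ℂ) (hm : ∀ j < m, Measurable (h j))
    (hs : ∀ j < m, ∀ z, z ∉ ball a r → h j z = 0) (hb : ∀ z, nm m (fun j => h j z) ≤ M) (l : ℂ) :
    nm m (fun j => ht (h j) l) ≤ K * M := by
  have hbj : ∀ j < m, Bd (h j) a r M := fun j hj =>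
    ⟨hm j hj, hM, fun z => (coord_le (fun j => h j z) hj).trans (hb z), hs j hj⟩
  set s : ℝ := nm m (fun j => ht (h j) l) with hs'
  have hs0 : 0 ≤ s := nm_nonneg _ _
  set G : ℂ → ℂ := fun z => ∑ j ∈ Finset.range m, conj (ht (h j) l) * h j z with hG
  have hGb : Bd G a r (s * M) := by
    refine ⟨?_, mul_nonneg hs0 hM, ?_, ?_⟩
    · exact Finset.measurable_sum _ fun j hj => (hm j (Finset.mem_range.1 hj)).const_mul _
    · intro z
      refine (norm_sum_mul_le m (fun j => conj (ht (h j) l)) (fun j => h j z)).trans ?_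
      have h1 : nm m (fun j => conj (ht (h j) l)) = s := by
        rw [hs']
        unfold nm
        congr 1
        exact Finset.sum_congr rfl fun j _ => by rw [RCLike.norm_conj]
      rw [h1]
      exact mul_le_mul_of_nonneg_left (hb z) hs0
    · intro z hz
      exact Finset.sum_eq_zero fun j hj => by rw [hs j (Finset.mem_range.1 hj) z hz, mul_zero]
  have h1 := (hK a (s * M) G hGb).2.2.2.1 l
  have h2 : ht G l = ((s ^ 2 : ℝ) : ℂ) := by
    have h3 : ht G l = ∑ j ∈ Finset.range m, conj (ht (h j) l) * ht (h j) l := by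
      unfold ht
      have h4 : ∀ z, G z * (z - l)⁻¹ =
          ∑ j ∈ Finset.range m, conj (ht (h j) l) * (h j z * (z - l)⁻¹) := by
        intro z
        rw [hG, Finset.sum_mul]
        exact Finset.sum_congr rfl fun j _ => by ring
      simp_rw [h4]
      rw [integral_finsetSum _ fun j hj =>
        ((hK a M (h j) (hbj j (Finset.mem_range.1 hj))).2.2.1 l).const_mul _]
      exact Finset.sum_congr rfl fun j _ => by
        rw [integral_const_mul]
        rfl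
    rw [h3, hs', nm_sq]
    push_cast
    refine Finset.sum_congr rfl fun j _ => ?_
    rw [mul_comm, Complex.mul_conj, Complex.normSq_eq_norm_sq]
    push_cast
    rfl
  rw [h2, Complex.norm_real, Real.norm_eq_abs, abs_of_nonneg (by positivity)] at h1
  rcases hs0.eq_or_lt with h0 | h0
  · rw [← h0]
    exact mul_nonneg hK0 hM
  · have h5 : s * s ≤ s * (K * M) := by nlinarith
    exact le_of_mul_le_mul_left h5 h0

theorem YY_norm {S : Type} [MeasurableSpace S] {μ : Measure S} [SigmaFinite μ] {φ : S → ℂ}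
    {N : Lp ℂ 2 μ →L[ℂ] Lp ℂ 2 μ} (hN : IsMul φ N) {K r : ℝ} (hK0 : 0 ≤ K)
    (hK : ∀ (c : ℂ) (M : ℝ) (g : ℂ → ℂ), Bd g c r M →
      Integrable g ∧ Measurable (ht g) ∧ (∀ l, Integrable (fun z => g z * (z - l)⁻¹)) ∧
      (∀ l, ‖ht g l‖ ≤ K * M) ∧
      ∀ b l : ℂ, ht (fun z => (z - b) * g z) l = (l - b) * ht g l + ∫ z, g z)
    (u : ℕ → Lp ℂ 2 μ) (m : ℕ) (a : ℂ) (M : ℝ) (hM : 0 ≤ M) (h : ℕ → ℂ → ℂ)
    (hm : ∀ j < m, Measurable (h j)) (hs : ∀ j < m, ∀ z, z ∉ ball a r → h j z = 0)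
    (hb : ∀ z, nm m (fun j => h j z) ≤ M) :
    ‖YY φ u m h‖ ≤ K * M * √(∑ j ∈ Finset.range m, ‖u j‖ ^ 2) := by
  unfold YY
  refine sum_norm hN u m (K * M) (mul_nonneg hK0 hM) (fun j => ht (h j)) (fun j hj => ?_)
    (fun l => ht_nm hK0 hK m a M hM h hm hs hb l)
  exact (hK a M (h j) ⟨hm j hj, hM, fun z => (coord_le (fun j => h j z) hj).trans (hb z),
    hs j hj⟩).2.1

end Pool.Agent.Q169.TC
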